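import Mathlib
import Pool.Agent.Helper50_Bend.Defs
import Pool.Agent.Helper50_Bend.Main

/-!
# MP_061339_co: one bend per exclusive edge is not enough (the answer to Q1 is no)

Vertices: a centre and four legs `p₁, …, p₆`; the shared graph is this spider.  On every leg the
first graph has the two further edges `p₁p₃` and `p₃p₅`, which leave `p₁` (resp. `p₃`) on the right
side of the leg, go round the tip and arrive at `p₃` (resp. `p₅`) on the left side; the second
graph has the further edge `p₁p₅`, which leaves `p₁` on the left side, goes round the tip and
arrives at `p₅` on the right side.

If the shared edges are straight and the exclusive edges have one bend, then these edges close up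
with the leg to two quadrilaterals and a hexagon.  Each of the three kinds of polygons winds around
the centre on at most one leg, so on some leg none of them does.  On this leg the angle sums give
`R(p₂) + R(p₃) < 2π`, `R(p₄) + R(p₅) < 2π` and `L(p₂) + L(p₃) + L(p₄) + L(p₅) < 4π` for the
angles on the right and on the left side of the leg, which is impossible as `R + L = 2π`.
-/

set_option autoImplicit false

open Pool.Agent.Helper50Bend

/-- There are two graphs on a common vertex set, whose shared graph is a tree, with compatible
planar embeddings that are not realised by any simultaneous drawing with straight shared edges and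
at most one bend on every exclusive edge. -/
theorem Pool.Agent.Results.MP_061339_co.NoOneBend.result :
    ∃ (V : Type) (_ : Fintype V) (G₁ G₂ : SimpleGraph V) (R₁ : Rot G₁) (R₂ : Rot G₂),
      (G₁ ⊓ G₂).IsTree ∧ R₁.IsPlanar ∧ R₂.IsPlanar ∧ Compatible R₁ R₂ ∧
        ¬ ∃ D : Drawing V, D.IsSimultaneous R₁ R₂ 0 1 :=
  main
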